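import Mathlib
import Pool.Agent.W500.CS.Stm2

/-! CQ-SUP1: where the Cauchy transform is holomorphic there is no mass. -/

set_option autoImplicit false

open MeasureTheory Metric Set Filter Topology
open Pool.Agent.H586R3.CT

namespace Pool.Agent.W551.CQ.SUP1

theorem main : Pool.Agent.W500.CS.S_SUP1 := by
  intro μ _ G A hG hA hval
  rw [Set.disjoint_left]
  intro x hx hsupp
  obtain ⟨r, hr, hball⟩ := Metric.isOpen_iff.1 hG x hx
  have h1 := ae_gauss μ x r
  have h2 := ae_polar x hval r
  have h0 : (ae ((volume : Measure ℝ).restrict (Ioo (0 : ℝ) r))).NeBot := by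
    rw [ae_neBot]
    intro h
    rw [Measure.restrict_eq_zero, Real.volume_Ioo, sub_zero, ENNReal.ofReal_eq_zero] at h
    linarith
  obtain ⟨ρ, hρ, hg, hp⟩ :=
    ((ae_restrict_mem (μ := (volume : Measure ℝ)) (s := Ioo (0 : ℝ) r)
      measurableSet_Ioo).and (h1.and h2)).exists
  have hcb : closedBall x ρ ⊆ G := by
    intro z hz
    apply hball
    rw [mem_ball]
    rw [mem_closedBall] at hz
    linarith [hρ.2]
  have hA0 : (∮ z in C(x, ρ), A z) = 0 := by
    refine Complex.circleIntegral_eq_zero_of_differentiable_on_off_countable hρ.1.le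
      (s := ∅) countable_empty (hA.continuousOn.mono hcb) ?_
    intro z hz
    have hz1 : z ∈ G := hcb (ball_subset_closedBall hz.1)
    exact hA.differentiableAt (hG.mem_nhds hz1)
  have heq : (∮ z in C(x, ρ), CT μ z) = ∮ z in C(x, ρ), A z := by
    rw [circleIntegral_eq, circleIntegral_eq]
    apply intervalIntegral.integral_congr_ae
    rw [uIoc_of_le (by linarith [Real.pi_pos] : -Real.pi ≤ Real.pi)]
    have h3 : ∀ᵐ θ ∂((volume : Measure ℝ).restrict (Ioc (-Real.pi) Real.pi)),
        cp x ρ θ ∈ G → CT μ (cp x ρ θ) = A (cp x ρ θ) := by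
      rw [← restrict_Ioo_eq_restrict_Ioc]
      exact hp
    rw [ae_restrict_iff' measurableSet_Ioc] at h3
    filter_upwards [h3] with θ hθ hθm
    rw [hθ hθm (hcb (by rw [mem_closedBall, dist_cp x hρ.1.le]))]
  rw [heq, hA0] at hg
  have h4 : ((μ (ball x ρ)).toReal : ℂ) = 0 := by
    have h5 : (2 * Real.pi * Complex.I : ℂ) ≠ 0 := Complex.two_pi_I_ne_zero
    exact (mul_eq_zero.1 hg.symm).resolve_left h5
  have h6 : (μ (ball x ρ)).toReal = 0 := by exact_mod_cast h4
  have h7 := (Measure.mem_support_iff_forall x).1 hsupp (ball x ρ) (ball_mem_nhds x hρ.1)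
  rcases (ENNReal.toReal_eq_zero_iff _).1 h6 with h8 | h8
  · exact h7.ne' h8
  · exact (measure_lt_top μ _).ne h8

end Pool.Agent.W551.CQ.SUP1
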